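import Pool.Agent.Helper68.Moeller.Basic
import Pool.Agent.Helper8.CO.Def

/-!
# The Collatz map and the map `(3x + 1) / 2`

`f` is the Collatz map of the problem, `T 2 3 (fun _ => -1)` (here `Tm`) is the shortcut map on the integers.
-/

set_option autoImplicit false

namespace Pool.Agent.Helper41.RV

open Pool.Agent.Helper68.Moeller

/-- The Collatz map: `n / 2` for even `n`, `3 n + 1` for odd `n`. -/
def f (n : ℕ) : ℕ := if Even n then n / 2 else 3 * n + 1

/-- `T(n)` is defined: some iterate of `f` maps `n` to `1`. -/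
def Reach (n : ℕ) : Prop := ∃ k : ℕ, f^[k] n = 1

/-- `T(n)`: the least `k` with `f^[k] n = 1` (meaningful if `Reach n`). -/
noncomputable def steps (n : ℕ) : ℕ := sInf {k : ℕ | f^[k] n = 1}

/-- The map `(3x + 1) / 2`, `x / 2` on the integers. -/
def Tm : ℤ → ℤ := T 2 3 (fun _ => -1)

/-- One step of `Tm` on the natural numbers. -/
def g (n : ℕ) : ℕ := if Even n then n / 2 else (3 * n + 1) / 2

theorem Tm_natCast (n : ℕ) : Tm (n : ℤ) = (g n : ℤ) := by
  unfold Tm T g
  by_cases h : Even n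
  · have h2 : ((2 : ℕ) : ℤ) ∣ (n : ℤ) := by exact_mod_cast h.two_dvd
    rw [if_pos h2, if_pos h]
    push_cast
    rfl
  · have h2 : ¬ ((2 : ℕ) : ℤ) ∣ (n : ℤ) := by
      intro h3
      exact h (even_iff_two_dvd.2 (by exact_mod_cast h3))
    rw [if_neg h2, if_neg h]
    push_cast
    congr 1

theorem Tm_iter_natCast (k n : ℕ) : Tm^[k] (n : ℤ) = ((g^[k] n : ℕ) : ℤ) := by
  induction k generalizing n with
  | zero => rfl
  | succ k ih => rw [Function.iterate_succ_apply, Function.iterate_succ_apply, Tm_natCast, ih]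

theorem g_pos {n : ℕ} (h : 0 < n) : 0 < g n := by
  unfold g
  split_ifs with h1
  · obtain ⟨m, rfl⟩ := h1
    omega
  · omega

theorem g_iter_pos {n : ℕ} (h : 0 < n) (k : ℕ) : 0 < g^[k] n := by
  induction k generalizing n with
  | zero => exact h
  | succ k ih => rw [Function.iterate_succ_apply]; exact ih (g_pos h)

theorem f_even {n : ℕ} (h : Even n) : f n = g n := by
  unfold f g
  rw [if_pos h, if_pos h]

theorem f_odd {n : ℕ} (h : ¬ Even n) : f n = 3 * n + 1 ∧ f (f n) = g n := by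
  have h1 : f n = 3 * n + 1 := if_neg h
  refine ⟨h1, ?_⟩
  rw [h1]
  have h2 : Even (3 * n + 1) := by
    rw [Nat.not_even_iff_odd] at h
    obtain ⟨m, rfl⟩ := h
    exact ⟨3 * m + 2, by ring⟩
  unfold f g
  rw [if_pos h2, if_neg h]

/-- After `k` steps of `Tm`, that is `k + cnt k n` steps of `f`. -/
theorem bridge (k : ℕ) : ∀ n : ℕ, 0 < n → (∀ i < k, g^[i] n ≠ 1) →
    f^[k + cnt 2 3 (fun _ => -1) k n] n = g^[k] n ∧
      ∀ j < k + cnt 2 3 (fun _ => -1) k n, f^[j] n ≠ 1 := by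
  induction k with
  | zero =>
    intro n _ _
    exact ⟨rfl, fun j hj => absurd hj (Nat.not_lt_zero j)⟩
  | succ k ih =>
    intro n hn h
    have h0 : n ≠ 1 := h 0 (Nat.succ_pos k)
    obtain ⟨h1, h2⟩ := ih (g n) (g_pos hn) fun i hi => by
      have := h (i + 1) (Nat.succ_lt_succ hi)
      rwa [Function.iterate_succ_apply] at this
    have e0 : T 2 3 (fun _ => -1) (n : ℤ) = (g n : ℤ) := Tm_natCast n
    by_cases hev : Even n
    · have e1 : cnt 2 3 (fun _ => -1) (k + 1) (n : ℤ) = cnt 2 3 (fun _ => -1) k (g n : ℤ) := by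
        rw [cnt, if_pos (by exact_mod_cast hev.two_dvd), zero_add, e0]
      rw [e1, show k + 1 + cnt 2 3 (fun _ => -1) k (g n : ℤ) =
        k + cnt 2 3 (fun _ => -1) k (g n : ℤ) + 1 by omega]
      refine ⟨?_, ?_⟩
      · rw [Function.iterate_succ_apply, f_even hev, h1, ← Function.iterate_succ_apply]
      · intro j hj
        rcases j with _ | j
        · exact h0
        · rw [Function.iterate_succ_apply, f_even hev]
          exact h2 j (by omega)
    · obtain ⟨f1, f2⟩ := f_odd hev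
      have e1 : cnt 2 3 (fun _ => -1) (k + 1) (n : ℤ) = 1 + cnt 2 3 (fun _ => -1) k (g n : ℤ) := by
        rw [cnt, if_neg (fun h3 => hev (even_iff_two_dvd.2 (by exact_mod_cast h3))), e0]
      rw [e1, show k + 1 + (1 + cnt 2 3 (fun _ => -1) k (g n : ℤ)) =
        k + cnt 2 3 (fun _ => -1) k (g n : ℤ) + 1 + 1 by omega]
      refine ⟨?_, ?_⟩
      · rw [Function.iterate_succ_apply, Function.iterate_succ_apply, f2, h1,
          ← Function.iterate_succ_apply]
      · intro j hj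
        rcases j with _ | _ | j
        · exact h0
        · rw [zero_add, Function.iterate_one, f1]
          omega
        · rw [Function.iterate_succ_apply, Function.iterate_succ_apply, f2]
          exact h2 j (by omega)

/-- Leaving off the first `K` points of the orbit. -/
theorem reach_iter {n K : ℕ} (h : ∀ j < K, f^[j] n ≠ 1) :
    (Reach n ↔ Reach (f^[K] n)) ∧ (Reach n → steps n = K + steps (f^[K] n)) := by
  have key : ∀ k : ℕ, f^[k] n = 1 → ∃ j, k = K + j ∧ f^[j] (f^[K] n) = 1 := by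
    intro k hk
    have hK : K ≤ k := by
      by_contra hlt
      exact h k (by omega) hk
    refine ⟨k - K, by omega, ?_⟩
    rw [← Function.iterate_add_apply, Nat.sub_add_cancel hK]
    exact hk
  have key2 : ∀ j : ℕ, f^[j] (f^[K] n) = 1 → f^[K + j] n = 1 := by
    intro j hj
    rw [add_comm, Function.iterate_add_apply]
    exact hj
  refine ⟨⟨?_, ?_⟩, ?_⟩
  · rintro ⟨k, hk⟩
    obtain ⟨j, _, hj⟩ := key k hk
    exact ⟨j, hj⟩
  · rintro ⟨j, hj⟩
    exact ⟨K + j, key2 j hj⟩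
  · rintro ⟨k, hk⟩
    obtain ⟨j, _, hj⟩ := key k hk
    have h1 : f^[steps n] n = 1 := Nat.sInf_mem (s := {k : ℕ | f^[k] n = 1}) ⟨k, hk⟩
    have h2 : f^[steps (f^[K] n)] (f^[K] n) = 1 :=
      Nat.sInf_mem (s := {j : ℕ | f^[j] (f^[K] n) = 1}) ⟨j, hj⟩
    apply le_antisymm
    · exact Nat.sInf_le (s := {k : ℕ | f^[k] n = 1}) (key2 _ h2)
    · obtain ⟨i, hi, hi2⟩ := key _ h1
      rw [hi]
      exact Nat.add_le_add_left (Nat.sInf_le (s := {j : ℕ | f^[j] (f^[K] n) = 1}) hi2) K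

/-- If the orbits of `n` and `m` under `Tm` merge before they reach `1` then `T n = T m`. -/
theorem same {k n m : ℕ} (hn : 0 < n) (hm : 0 < m) (h1 : ∀ i < k, g^[i] n ≠ 1)
    (h2 : ∀ i < k, g^[i] m ≠ 1) (h : Pool.Agent.Helper8.CO.MM (-1) k 0 (n : ℤ) (m : ℤ)) :
    (Reach n ↔ Reach m) ∧ (Reach n → steps n = steps m) := by
  obtain ⟨e1, e2⟩ := h
  rw [add_zero] at e2
  obtain ⟨a1, a2⟩ := bridge k n hn h1
  obtain ⟨b1, b2⟩ := bridge k m hm h2
  have e3 : g^[k] n = g^[k] m := by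
    have h3 : Tm^[k] (n : ℤ) = Tm^[k] (m : ℤ) := e1
    rw [Tm_iter_natCast, Tm_iter_natCast] at h3
    exact_mod_cast h3
  rw [← e2] at b1 b2
  obtain ⟨c1, c2⟩ := reach_iter a2
  obtain ⟨d1, d2⟩ := reach_iter b2
  have e4 : f^[k + cnt 2 3 (fun _ => -1) k (n : ℤ)] n = f^[k + cnt 2 3 (fun _ => -1) k (n : ℤ)] m := by
    rw [a1, b1, e3]
  have e5 : Reach n ↔ Reach m := by rw [c1, d1, e4]
  refine ⟨e5, fun hr => ?_⟩
  rw [c2 hr, d2 (e5.1 hr), e4]

/-- `n` reaches `1` under `f` if and only if it does so under `Tm`. -/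
theorem reach_iff {n : ℕ} (hn : 0 < n) : Reach n ↔ ∃ t : ℕ, Tm^[t] (n : ℤ) = 1 := by
  constructor
  · rintro ⟨k, hk⟩
    by_contra hno
    push Not at hno
    have h1 : ∀ i < k + 1, g^[i] n ≠ 1 := by
      intro i _ h2
      apply hno i
      rw [Tm_iter_natCast, h2]
      rfl
    exact (bridge (k + 1) n hn h1).2 k (by omega) hk
  · rintro ⟨t, ht⟩
    have hex : ∃ t : ℕ, g^[t] n = 1 := ⟨t, by rw [Tm_iter_natCast] at ht; exact_mod_cast ht⟩
    classical
    have h1 := Nat.find_spec hex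
    have h2 : ∀ i < Nat.find hex, g^[i] n ≠ 1 := fun i hi => Nat.find_min hex hi
    refine ⟨_, (bridge (Nat.find hex) n hn h2).1.trans h1⟩

end Pool.Agent.Helper41.RV
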