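import Pool.Agent.Helper41.RV.Basic
import Pool.Agent.Helper8.CO.Win2
import Pool.Agent.Helper28.POSB.Basins

/-!
# Windows on which `T` is constant
-/

set_option autoImplicit false

namespace Pool.Agent.Helper41.RV

open Pool.Agent.Helper68.Moeller Pool.Agent.Helper8 Filter Topology
open Pool.Agent.Helper8.ND (cN)

/-- The number of the `1 ≤ n ≤ x` in `A`. -/
noncomputable def count (A : Set ℕ) (x : ℝ) : ℝ := ({n : ℕ | n ∈ A ∧ 1 ≤ n ∧ (n : ℝ) ≤ x}.ncard : ℝ)

/-- The natural density of `A` is `p`. -/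
def HasDensity (A : Set ℕ) (p : ℝ) : Prop := Tendsto (fun x : ℝ => count A x / x) atTop (𝓝 p)

/-- `T` is defined and constant on `[n - w, n + w]`, or it is defined at no point of this interval. -/
def Flat (w : ℝ) (n : ℕ) : Prop :=
  (∀ m : ℕ, |(m : ℝ) - n| ≤ w → Reach m ∧ steps m = steps n) ∨ ∀ m : ℕ, |(m : ℝ) - n| ≤ w → ¬ Reach m

theorem fin_le (A : Set ℕ) (x : ℝ) : {n : ℕ | n ∈ A ∧ 1 ≤ n ∧ (n : ℝ) ≤ x}.Finite := by
  refine (Set.finite_Icc 1 ⌊x⌋₊).subset ?_
  rintro n ⟨_, h1, h2⟩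
  exact ⟨h1, Nat.le_floor h2⟩

theorem count_nonneg (A : Set ℕ) (x : ℝ) : 0 ≤ count A x := Nat.cast_nonneg _

theorem count_le {A : Set ℕ} {x : ℝ} (hx : 0 ≤ x) : count A x ≤ x := by
  unfold count
  have h1 : {n : ℕ | n ∈ A ∧ 1 ≤ n ∧ (n : ℝ) ≤ x}.ncard ≤ (Set.Icc 1 ⌊x⌋₊).ncard := by
    refine Set.ncard_le_ncard ?_ (Set.finite_Icc _ _)
    rintro n ⟨_, h1, h2⟩
    exact ⟨h1, Nat.le_floor h2⟩
  have h2 : (Set.Icc 1 ⌊x⌋₊).ncard = ⌊x⌋₊ := by
    rw [← Finset.coe_Icc, Set.ncard_coe_finset, Nat.card_Icc]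
    omega
  rw [h2] at h1
  exact (Nat.cast_le.2 h1).trans (Nat.floor_le hx)

theorem count_mono {A B : Set ℕ} {x : ℝ} (h : ∀ n : ℕ, 1 ≤ n → (n : ℝ) ≤ x → n ∈ A → n ∈ B) :
    count A x ≤ count B x := by
  unfold count
  refine Nat.cast_le.2 (Set.ncard_le_ncard ?_ (fin_le B x))
  rintro n ⟨h1, h2, h3⟩
  exact ⟨h n h2 h3 h1, h2, h3⟩

theorem count_union (A B : Set ℕ) (x : ℝ) : count (A ∪ B) x ≤ count A x + count B x := by
  unfold count
  rw [← Nat.cast_add]
  refine Nat.cast_le.2 (le_trans (Set.ncard_le_ncard ?_ ((fin_le A x).union (fin_le B x)))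
    (Set.ncard_union_le _ _))
  rintro n ⟨h1 | h1, h2, h3⟩
  · exact Or.inl ⟨h1, h2, h3⟩
  · exact Or.inr ⟨h1, h2, h3⟩

theorem count_cN (G : Set ℤ) (x : ℝ) : count {n : ℕ | (n : ℤ) ∈ G} x = cN G x := by
  unfold count cN
  congr 1
  rw [← Set.ncard_image_of_injective _ (Nat.cast_injective (R := ℤ))]
  congr 1
  ext z
  simp only [Set.mem_image, Set.mem_ofPred_eq]
  constructor
  · rintro ⟨n, ⟨h1, h2, h3⟩, rfl⟩
    exact ⟨h1, by exact_mod_cast h2, by exact_mod_cast h3⟩
  · rintro ⟨h1, h2, h3⟩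
    refine ⟨z.toNat, ?_, Int.toNat_of_nonneg h2.le⟩
    have e : ((z.toNat : ℕ) : ℤ) = z := Int.toNat_of_nonneg h2.le
    refine ⟨by rw [e]; exact h1, by omega, ?_⟩
    have e2 : ((z.toNat : ℕ) : ℝ) = (z : ℝ) := by exact_mod_cast congrArg (Int.cast (R := ℝ)) e
    rw [e2]
    exact h3

/-- Elementary estimates for large `x`. -/
theorem large {c c' x : ℝ} (hc : 0 < c) (hc' : 0 < c') (hcc : c + c' < 1 / 2)
    (hx : Real.exp 4 ≤ x) :
    Real.exp (Real.log x ^ c) ≤ √x ∧ √x ≤ 2 * (Real.log x ^ (-c') * x) := by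
  have hx0 : 0 < x := (Real.exp_pos _).trans_le hx
  have hL : 4 ≤ Real.log x := (Real.le_log_iff_exp_le hx0).2 hx
  have hL0 : 0 < Real.log x := by linarith
  have hsq : 0 < √x := Real.sqrt_pos.2 hx0
  constructor
  · rw [Real.le_sqrt (Real.exp_pos _).le hx0.le, ← Real.exp_nat_mul]
    rw [← Real.le_log_iff_exp_le hx0]
    have h1 : Real.log x ^ c ≤ Real.log x ^ (1 / 2 : ℝ) :=
      Real.rpow_le_rpow_of_exponent_le (by linarith) (by linarith)
    rw [← Real.sqrt_eq_rpow] at h1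
    have h2 : √(Real.log x) * √(Real.log x) = Real.log x := Real.mul_self_sqrt hL0.le
    have h3 : 2 ≤ √(Real.log x) := by
      rw [Real.le_sqrt (by norm_num) hL0.le]
      linarith
    push_cast
    nlinarith
  · have h1 : Real.log x ^ c' ≤ Real.log x ^ (1 : ℝ) :=
      Real.rpow_le_rpow_of_exponent_le (by linarith) (by linarith)
    rw [Real.rpow_one] at h1
    have h2 : Real.log x ≤ 2 * √x := by
      have h3 : Real.log x = 2 * Real.log √x := by
        rw [Real.log_sqrt hx0.le]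
        ring
      have h4 := Real.log_le_sub_one_of_pos hsq
      linarith
    have h5 : 0 < Real.log x ^ c' := Real.rpow_pos_of_pos hL0 _
    rw [Real.rpow_neg hL0.le, ← mul_assoc, mul_comm (2 * (Real.log x ^ c')⁻¹) x]
    rw [show x * (2 * (Real.log x ^ c')⁻¹) = 2 * x / Real.log x ^ c' by
      rw [div_eq_mul_inv]
      ring]
    rw [le_div_iff₀ h5]
    have h6 : √x * √x = x := Real.mul_self_sqrt hx0.le
    nlinarith

/-- The window statement for large `x`. -/
theorem window_large {c c' : ℝ} (hc : 0 < c) (hc' : 0 < c') (hcc : c + c' < 1 / 2) :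
    ∃ C X : ℝ, 0 < C ∧ ∀ x : ℝ, X ≤ x →
      count {n | ¬ Flat (Real.exp (Real.log x ^ c)) n} x ≤ C * (Real.log x ^ (-c') * x) := by
  obtain ⟨C, X, hC, h⟩ := CO.win2_rate (ρ := -1) (by decide) hc (show c < c + c' by linarith) hcc
  refine ⟨C + 10, max X (Real.exp 4), by linarith, fun x hx => ?_⟩
  have hX : X ≤ x := (le_max_left _ _).trans hx
  have h4 : Real.exp 4 ≤ x := (le_max_right _ _).trans hx
  have hx0 : 0 < x := (Real.exp_pos _).trans_le h4
  have hx1 : 1 ≤ x := (Real.one_le_exp (by norm_num)).trans h4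
  obtain ⟨hw, hs⟩ := large hc hc' hcc h4
  have h1 := h x hX
  rw [show c - (c + c') = -c' by ring] at h1
  set w : ℝ := Real.exp (Real.log x ^ c) with hwdef
  set G : Set ℤ := {n : ℤ | ∃ h : ℤ, (-1 : ℤ) ∣ h ∧ |(h : ℝ)| ≤ w ∧ ¬ CO.MM (-1) (CO.kk x) 0 n (n + h)}
    with hG
  have h2 : cN G x ≤ C * Real.log x ^ (-c') * x := by
    refine le_trans (le_of_eq ?_) h1
    unfold cN
    congr 2
    ext n
    simp only [hG, Set.mem_ofPred_eq]
    tauto
  have hkk := CO.two_pow_kk_le hx1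
  have hsub : count {n | ¬ Flat w n} x ≤ count ({n : ℕ | (n : ℤ) ∈ G} ∪ {n : ℕ | (n : ℝ) ≤ 5 * √x}) x := by
    refine count_mono fun n hn1 hnx hn => ?_
    by_contra hcon
    rw [Set.mem_union, not_or] at hcon
    obtain ⟨g1, g2⟩ := hcon
    rw [Set.mem_ofPred_eq, not_le] at g2
    rw [Set.mem_ofPred_eq, hG, Set.mem_ofPred_eq] at g1
    push Not at g1
    apply hn
    have horb : ∀ m : ℕ, 4 * √x ≤ m → ∀ i < CO.kk x, g^[i] m ≠ 1 := by
      intro m hm i hi h3
      have h5 := CO.orb_gt (ρ := -1) (by decide) (k := CO.kk x) (n := (m : ℤ)) (B := 2) (by norm_num)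
        (by
          rw [Int.cast_neg, Int.cast_one, abs_neg, abs_one, Int.cast_natCast]
          nlinarith) (i := i) hi.le
      have h6 : (T 2 3 (fun _ => -1))^[i] (m : ℤ) = 1 := by
        have := Tm_iter_natCast i m
        rw [h3] at this
        exact this
      rw [h6] at h5
      norm_num at h5
    have hs0 : 0 ≤ √x := Real.sqrt_nonneg x
    have hall : ∀ m : ℕ, |(m : ℝ) - n| ≤ w → (Reach n ↔ Reach m) ∧ (Reach n → steps n = steps m) := by
      intro m hm
      have hm1 := (abs_le.1 hm).1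
      have hm4 : 4 * √x ≤ m := by linarith
      have hmpos : 0 < m := by
        have : (0 : ℝ) < m := by
          have : 0 < √x := Real.sqrt_pos.2 hx0
          linarith
        exact_mod_cast this
      have h7 := g1 ((m : ℤ) - n) (by norm_num) (by push_cast; exact hm)
      rw [add_sub_cancel] at h7
      exact same (by omega) hmpos (horb n (by linarith)) (horb m hm4) h7
    by_cases hr : Reach n
    · left
      intro m hm
      obtain ⟨a1, a2⟩ := hall m hm
      exact ⟨a1.1 hr, (a2 hr).symm⟩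
    · right
      intro m hm hr2
      exact hr ((hall m hm).1.2 hr2)
  refine hsub.trans ((count_union _ _ _).trans ?_)
  rw [count_cN]
  have h3 : count {n : ℕ | (n : ℝ) ≤ 5 * √x} x ≤ 5 * √x := by
    refine le_trans ?_ (count_le (A := {n : ℕ | (n : ℝ) ≤ 5 * √x}) (by positivity))
    unfold count
    refine Nat.cast_le.2 (Set.ncard_le_ncard ?_ (fin_le _ _))
    rintro n ⟨a1, a2, a3⟩
    exact ⟨a1, a2, a1⟩
  nlinarith

/-- The window statement. -/
theorem window {c c' : ℝ} (hc : 0 < c) (hc' : 0 < c') (hcc : c + c' < 1 / 2) :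
    ∃ C : ℝ, 0 < C ∧ ∀ x : ℝ, 2 ≤ x →
      count {n | ¬ Flat (Real.exp (Real.log x ^ c)) n} x ≤ C * x * Real.log x ^ (-c') := by
  obtain ⟨C, X, hC, h⟩ := window_large hc hc' hcc
  obtain ⟨Y, hY⟩ : ∃ Y : ℝ, Y = max X 2 := ⟨_, rfl⟩
  have hY2 : 2 ≤ Y := hY ▸ le_max_right _ _
  have hLY : 0 < Real.log Y := Real.log_pos (by linarith)
  refine ⟨C + Real.log Y ^ c', by positivity, fun x hx => ?_⟩
  have hLx : 0 < Real.log x := Real.log_pos (by linarith)
  have hp : 0 < Real.log x ^ (-c') := Real.rpow_pos_of_pos hLx _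
  rcases le_total Y x with hYx | hYx
  · refine (h x ((hY ▸ le_max_left _ _ : X ≤ Y).trans hYx)).trans ?_
    have h1 : 0 ≤ Real.log Y ^ c' := Real.rpow_nonneg hLY.le _
    have h2 : 0 ≤ Real.log Y ^ c' * (x * Real.log x ^ (-c')) := by positivity
    nlinarith
  · refine (count_le (by linarith)).trans ?_
    have h1 : 1 ≤ Real.log Y ^ c' * Real.log x ^ (-c') := by
      rw [Real.rpow_neg hLx.le, ← div_eq_mul_inv, le_div_iff₀ (Real.rpow_pos_of_pos hLx _), one_mul]
      exact Real.rpow_le_rpow hLx.le (Real.log_le_log (by linarith) hYx) hc'.le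
    have h2 : 0 ≤ C * x * Real.log x ^ (-c') := by positivity
    have h3 : x ≤ x * (Real.log Y ^ c' * Real.log x ^ (-c')) := le_mul_of_one_le_right (by linarith) h1
    nlinarith

/-- The sets `I(v)` of the problem. -/
def I (v : ℤ) : Set ℕ := {n | Reach n ∧ Reach (n + 1) ∧ (steps (n + 1) : ℤ) - steps n = v}

theorem flat_next {w : ℝ} (hw : 1 ≤ w) {n : ℕ} (h : Flat w n) (hr : Reach n) :
    Reach (n + 1) ∧ steps (n + 1) = steps n := by
  have h1 : |((n + 1 : ℕ) : ℝ) - n| ≤ w := by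
    push_cast
    rw [add_sub_cancel_left, abs_one]
    exact hw
  rcases h with h | h
  · exact h (n + 1) h1
  · exact absurd hr (h n (by rw [sub_self, abs_zero]; linarith))

theorem one_le_win {c x : ℝ} (hx : 2 ≤ x) : 1 ≤ Real.exp (Real.log x ^ c) :=
  Real.one_le_exp (Real.rpow_nonneg (Real.log_nonneg (by linarith)) _)

/-- The rare values. -/
theorem rare {c : ℝ} (hc : 0 < c) (hc2 : c < 1 / 2) : ∃ C : ℝ, 0 < C ∧ ∀ x : ℝ, 2 ≤ x →
    count {n | ∃ v : ℤ, v ≠ 0 ∧ n ∈ I v} x ≤ C * x * Real.log x ^ (-c) := by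
  obtain ⟨C, hC, h⟩ := window (c := (1 / 2 - c) / 2) (c' := c) (by linarith) hc (by linarith)
  refine ⟨C, hC, fun x hx => le_trans (count_mono fun n _ _ hn => ?_) (h x hx)⟩
  obtain ⟨v, hv, h1, h2, h3⟩ := hn
  intro hf
  have h4 := (flat_next (one_le_win hx) hf h1).2
  rw [h4, sub_self] at h3
  exact hv h3.symm

theorem count_diff (A B : Set ℕ) (x : ℝ) : count A x ≤ count (A ∩ B) x + count (A \ B) x := by
  refine le_trans (count_mono fun n _ _ hn => ?_) (count_union _ _ _)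
  by_cases hB : n ∈ B
  · exact Or.inl ⟨hn, hB⟩
  · exact Or.inr ⟨hn, hB⟩

theorem log_rpow_tendsto {c : ℝ} (hc : 0 < c) :
    Tendsto (fun x : ℝ => Real.log x ^ (-c)) atTop (𝓝 0) :=
  (tendsto_rpow_neg_atTop hc).comp Real.tendsto_log_atTop

/-- The density of `I(0)` is the density of the numbers which reach `1`. -/
theorem zero_value : ∃ p : ℝ, 0 < p ∧ HasDensity {n | Reach n} p ∧ HasDensity (I 0) p ∧
    (p = 1 ↔ ∀ n : ℕ, 1 ≤ n → Reach n) := by
  obtain ⟨p, hp, h1, h2⟩ := Pool.Agent.Helper28.POSB.three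
  have hR : HasDensity {n | Reach n} p := by
    unfold HasDensity
    refine h1.congr fun x => ?_
    congr 1
    rw [← count_cN]
    refine le_antisymm (count_mono fun n hn _ h3 => ?_) (count_mono fun n hn _ h3 => ?_)
    · exact (reach_iff (by omega)).2 h3
    · exact (reach_iff (by omega)).1 h3
  refine ⟨p, hp, hR, ?_, ?_⟩
  · obtain ⟨C, hC, h⟩ := window (c := 1 / 8) (c' := 1 / 8) (by norm_num) (by norm_num) (by norm_num)
    have hlow : Tendsto (fun x : ℝ => count {n | Reach n} x / x - C * Real.log x ^ (-(1 / 8 : ℝ)))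
        atTop (𝓝 p) := by
      have := hR.sub ((log_rpow_tendsto (c := 1 / 8) (by norm_num)).const_mul C)
      rwa [mul_zero, sub_zero] at this
    refine tendsto_of_tendsto_of_tendsto_of_le_of_le' hlow hR ?_ ?_
    · filter_upwards [eventually_ge_atTop (2 : ℝ)] with x hx
      have hx0 : 0 < x := by linarith
      have h3 : count {n | Reach n} x ≤ count (I 0) x + C * x * Real.log x ^ (-(1 / 8 : ℝ)) := by
        refine (count_diff {n | Reach n} (I 0) x).trans (add_le_add ?_ ((count_mono ?_).trans (h x hx)))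
        · exact count_mono fun n _ _ hn => hn.2
        · intro n _ _ hn hf
          obtain ⟨a1, a2⟩ := flat_next (one_le_win hx) hf hn.1
          exact hn.2 ⟨hn.1, a1, by rw [a2, sub_self]⟩
      rw [sub_le_iff_le_add, div_le_iff₀ hx0, add_mul, div_mul_cancel₀ _ hx0.ne']
      linarith
    · filter_upwards [eventually_gt_atTop (0 : ℝ)] with x hx
      exact div_le_div_of_nonneg_right (count_mono fun n _ _ hn => hn.1) hx.le
  · rw [h2]
    constructor
    · intro h3 n hn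
      exact (reach_iff (by omega)).2 (h3 n (by exact_mod_cast hn))
    · intro h3 n hn
      have e : ((n.toNat : ℕ) : ℤ) = n := Int.toNat_of_nonneg hn.le
      have h4 := (reach_iff (n := n.toNat) (by omega)).1 (h3 n.toNat (by omega))
      rw [e] at h4
      exact h4

end Pool.Agent.Helper41.RV
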