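import Pool.Agent.Helper41.RV.Res

/-!
# The residues of small numbers

`go m k x s` runs the map `x / 2`, `(3 x + 1) / 2` at most `k` times, starting at `x`; `s` is an upper bound for the sum of the
`10 ^ 12 / y` over the odd `y` met so far. It stops at an `x < m` for which the bound `phi x` for the residue of `x` implies
the bound `phi m` for the residue of `m`.
-/

set_option autoImplicit false

namespace Pool.Agent.Helper41.RV

/-- One step of the run. -/
noncomputable def stp (ih : ℕ → ℕ → Bool) (x s : ℕ) : Bool :=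
  Bool.rec (motive := fun _ => Bool)
    (ih (Nat.div (Nat.add (Nat.mul (nat_lit 3) x) (nat_lit 1)) (nat_lit 2))
      (Nat.add s (Nat.add (Nat.div (nat_lit 1000000000000) x) (nat_lit 1))))
    (ih (Nat.div x (nat_lit 2)) s)
    (Nat.beq (Nat.mod x (nat_lit 2)) (nat_lit 0))

/-- The tests and one step of the run. -/
noncomputable def body (m : ℕ) (ih : ℕ → ℕ → Bool) (x s : ℕ) : Bool :=
  Bool.rec (motive := fun _ => Bool) (stp ih x s)
    (Bool.rec (motive := fun _ => Bool)
      (Bool.rec (motive := fun _ => Bool) (stp ih x s) true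
        (Nat.ble (Nat.mul (Nat.mul s m) x) (Nat.mul (nat_lit 12000000000000) (Nat.sub m x))))
      (Nat.ble (Nat.mul s (nat_lit 400)) (nat_lit 3000000000000))
      (Nat.ble x (nat_lit 1500)))
    (Nat.ble (Nat.add x (nat_lit 1)) m)

/-- The run. -/
noncomputable def go (m : ℕ) : ℕ → ℕ → ℕ → Bool :=
  Nat.rec (motive := fun _ => ℕ → ℕ → Bool) (fun _ _ => false) fun _ ih x s => body m ih x s

/-- The runs for `a, a + 4, …, a + 4 (k - 1)`. -/
noncomputable def rng (a : ℕ) : ℕ → Bool :=
  Nat.rec (motive := fun _ => Bool) true fun k ih => Bool.rec (motive := fun _ => Bool) false ih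
    (go (Nat.add a (Nat.mul (nat_lit 4) k)) (nat_lit 400) (Nat.add a (Nat.mul (nat_lit 4) k)) (nat_lit 0))

/-- The runs for `a, a + 4, …, a + 4 (100 k - 1)`. -/
noncomputable def rng2 (a : ℕ) : ℕ → Bool :=
  Nat.rec (motive := fun _ => Bool) true fun k ih => Bool.rec (motive := fun _ => Bool) false ih
    (rng (Nat.add a (Nat.mul (nat_lit 400) k)) (nat_lit 100))

/-- One step of the run for the small numbers. -/
noncomputable def bodyB (m : ℕ) (ih : ℕ → ℕ → ℕ → Bool) (x p q : ℕ) : Bool :=
  Bool.rec (motive := fun _ => Bool)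
    (Bool.rec (motive := fun _ => Bool)
      (ih (Nat.add (Nat.mul (nat_lit 3) x) (nat_lit 1)) p (Nat.mul (nat_lit 3) q))
      (ih (Nat.div x (nat_lit 2)) (Nat.mul (nat_lit 2) p) q)
      (Nat.beq (Nat.mod x (nat_lit 2)) (nat_lit 0)))
    (Nat.ble (Nat.mul p (nat_lit 10000)) (Nat.mul (Nat.mul (nat_lit 12532) q) m))
    (Nat.beq x (nat_lit 1))

/-- The run for the small numbers. -/
noncomputable def goB (m : ℕ) : ℕ → ℕ → ℕ → ℕ → Bool :=
  Nat.rec (motive := fun _ => ℕ → ℕ → ℕ → Bool) (fun _ _ _ => false) fun _ ih x p q => bodyB m ih x p q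

/-- The runs for `a, a + 2, …, a + 2 (k - 1)`. -/
noncomputable def rngB (a : ℕ) : ℕ → Bool :=
  Nat.rec (motive := fun _ => Bool) true fun k ih => Bool.rec (motive := fun _ => Bool) false ih
    (goB (Nat.add a (Nat.mul (nat_lit 2) k)) (nat_lit 400) (Nat.add a (Nat.mul (nat_lit 2) k)) (nat_lit 1) (nat_lit 1))

theorem rec_true {a b c : Bool} (h : Bool.rec (motive := fun _ => Bool) a b c = true) :
    (c = false ∧ a = true) ∨ (c = true ∧ b = true) := by
  cases c
  · exact Or.inl ⟨rfl, h⟩
  · exact Or.inr ⟨rfl, h⟩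

theorem rng_sound {a : ℕ} : ∀ k : ℕ, rng a k = true → ∀ i < k, go (a + 4 * i) 400 (a + 4 * i) 0 = true := by
  intro k
  induction k with
  | zero => intro _ i hi; omega
  | succ k ih =>
    intro h i hi
    rcases rec_true (show Bool.rec (motive := fun _ => Bool) false (rng a k)
      (go (a + 4 * k) 400 (a + 4 * k) 0) = true from h) with ⟨_, h2⟩ | ⟨h1, h2⟩
    · exact absurd h2 (by decide)
    · rcases Nat.lt_succ_iff_lt_or_eq.1 hi with h3 | rfl
      · exact ih h2 i h3
      · exact h1

theorem rng2_sound {a : ℕ} : ∀ k : ℕ, rng2 a k = true → ∀ i < k, rng (a + 400 * i) 100 = true := by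
  intro k
  induction k with
  | zero => intro _ i hi; omega
  | succ k ih =>
    intro h i hi
    rcases rec_true (show Bool.rec (motive := fun _ => Bool) false (rng2 a k)
      (rng (a + 400 * k) 100) = true from h) with ⟨_, h2⟩ | ⟨h1, h2⟩
    · exact absurd h2 (by decide)
    · rcases Nat.lt_succ_iff_lt_or_eq.1 hi with h3 | rfl
      · exact ih h2 i h3
      · exact h1

theorem rngB_sound {a : ℕ} : ∀ k : ℕ, rngB a k = true → ∀ i < k, goB (a + 2 * i) 400 (a + 2 * i) 1 1 = true := by
  intro k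
  induction k with
  | zero => intro _ i hi; omega
  | succ k ih =>
    intro h i hi
    rcases rec_true (show Bool.rec (motive := fun _ => Bool) false (rngB a k)
      (goB (a + 2 * k) 400 (a + 2 * k) 1 1) = true from h) with ⟨_, h2⟩ | ⟨h1, h2⟩
    · exact absurd h2 (by decide)
    · rcases Nat.lt_succ_iff_lt_or_eq.1 hi with h3 | rfl
      · exact ih h2 i h3
      · exact h1

theorem stp_sound {ih : ℕ → ℕ → Bool} {x s : ℕ} (h : stp ih x s = true) :
    (x % 2 = 0 ∧ ih (x / 2) s = true) ∨
      (x % 2 = 1 ∧ ih ((3 * x + 1) / 2) (s + (1000000000000 / x + 1)) = true) := by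
  rcases rec_true (show Bool.rec (motive := fun _ => Bool) (ih ((3 * x + 1) / 2) (s + (1000000000000 / x + 1)))
    (ih (x / 2) s) (Nat.beq (x % 2) 0) = true from h) with ⟨h1, h2⟩ | ⟨h1, h2⟩
  · right
    refine ⟨?_, h2⟩
    have : x % 2 ≠ 0 := Nat.ne_of_beq_eq_false h1
    omega
  · left
    exact ⟨Nat.eq_of_beq_eq_true h1, h2⟩

theorem body_sound {m : ℕ} {ih : ℕ → ℕ → Bool} {x s : ℕ} (h : body m ih x s = true) :
    (m ≤ x ∧ stp ih x s = true) ∨ (x < m ∧ x ≤ 1500 ∧ s * 400 ≤ 3000000000000) ∨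
      (x < m ∧ 1500 < x ∧ s * m * x ≤ 12000000000000 * (m - x)) ∨ (1500 < x ∧ stp ih x s = true) := by
  rcases rec_true (show Bool.rec (motive := fun _ => Bool) (stp ih x s)
    (Bool.rec (motive := fun _ => Bool)
      (Bool.rec (motive := fun _ => Bool) (stp ih x s) true
        (Nat.ble (s * m * x) (12000000000000 * (m - x))))
      (Nat.ble (s * 400) 3000000000000) (Nat.ble x 1500)) (Nat.ble (x + 1) m) = true from h)
    with ⟨h1, h2⟩ | ⟨h1, h2⟩
  · left
    refine ⟨?_, h2⟩
    by_contra hcon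
    rw [Nat.ble_eq_true_of_le (by omega : x + 1 ≤ m)] at h1
    exact Bool.noConfusion h1
  · have hxm : x + 1 ≤ m := Nat.le_of_ble_eq_true h1
    rcases rec_true h2 with ⟨h3, h4⟩ | ⟨h3, h4⟩
    · have hx : 1500 < x := by
        by_contra hcon
        rw [Nat.ble_eq_true_of_le (by omega : x ≤ 1500)] at h3
        exact Bool.noConfusion h3
      rcases rec_true h4 with ⟨_, h6⟩ | ⟨h5, _⟩
      · exact Or.inr (Or.inr (Or.inr ⟨hx, h6⟩))
      · exact Or.inr (Or.inr (Or.inl ⟨hxm, hx, Nat.le_of_ble_eq_true h5⟩))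
    · exact Or.inr (Or.inl ⟨hxm, Nat.le_of_ble_eq_true h3, Nat.le_of_ble_eq_true h4⟩)

/-- The bound for the residue. -/
noncomputable def phi (n : ℕ) : ℝ := if n ≤ 1500 then 12532 / 10000 else 126 / 100 * (1 - 4 / n)

/-- `n` reaches `1`, and its residue is at most `phi n`. -/
def Good (n : ℕ) : Prop := Reach n ∧ res n ≤ phi n

theorem res_half {x : ℕ} (h0 : 1 ≤ x) (h : x % 2 = 0) (hr : Reach (x / 2)) : Reach x ∧ res x = res (x / 2) := by
  have he : Even x := Nat.even_iff.2 h
  have hne : x ≠ 1 := by omega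
  have e : f x = x / 2 := if_pos he
  have hx : Reach x := (reach_succ hne).1.2 (by rw [e]; exact hr)
  exact ⟨hx, res_even h0 hne hx he⟩

theorem res_up {x : ℕ} (h1 : 2 ≤ x) (h : x % 2 = 1) (hr : Reach ((3 * x + 1) / 2)) :
    Reach x ∧ res x = (1 + 1 / (3 * (x : ℝ))) * res ((3 * x + 1) / 2) := by
  have he : ¬ Even x := by
    rw [Nat.not_even_iff]
    exact h
  have hne : x ≠ 1 := by omega
  have e : f x = 3 * x + 1 := if_neg he
  obtain ⟨a, b⟩ := res_half (x := 3 * x + 1) (by omega) (by omega) hr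
  have hx : Reach x := (reach_succ hne).1.2 (by rw [e]; exact a)
  refine ⟨hx, ?_⟩
  rw [res_odd (by omega) hne hx he, b]

theorem stp_good {m : ℕ} {ih : ℕ → ℕ → Bool} {C : ℝ} (hC : 0 ≤ C)
    (hih : ∀ x s : ℕ, 1 ≤ x → ih x s = true → Reach x ∧ res x ≤ C * (1 - s / 3000000000000)) {x s : ℕ}
    (hx : 2 ≤ x) (h : stp ih x s = true) : Reach x ∧ res x ≤ C * (1 - s / 3000000000000) := by
  rcases stp_sound h with ⟨h1, h2⟩ | ⟨h1, h2⟩
  · obtain ⟨a, b⟩ := hih _ _ (by omega) h2
    obtain ⟨c, d⟩ := res_half (by omega) h1 a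
    exact ⟨c, by rw [d]; exact b⟩
  · obtain ⟨a, b⟩ := hih _ _ (by omega) h2
    obtain ⟨c, d⟩ := res_up hx h1 a
    refine ⟨c, ?_⟩
    rw [d]
    have hx0 : (0 : ℝ) < x := by
      have : 0 < x := by omega
      exact_mod_cast this
    have h3 : (1000000000000 : ℝ) / x ≤ ((1000000000000 / x + 1 : ℕ) : ℝ) := by
      rw [div_le_iff₀ hx0]
      have h4 : 1000000000000 ≤ (1000000000000 / x + 1) * x := by
        have := Nat.div_add_mod 1000000000000 x
        have := Nat.mod_lt 1000000000000 (show 0 < x by omega)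
        nlinarith
      exact_mod_cast h4
    rw [Nat.cast_add] at b
    set A : ℝ := ((1000000000000 / x + 1 : ℕ) : ℝ) with hA
    obtain ⟨y, hy⟩ : ∃ y : ℝ, y = 1 / (3 * (x : ℝ)) := ⟨_, rfl⟩
    have hy0 : 0 ≤ y := by rw [hy]; positivity
    have h5 : y ≤ A / 3000000000000 := by
      rw [hy]
      rw [div_le_iff₀ hx0] at h3
      rw [div_le_div_iff₀ (by positivity) (by norm_num)]
      linarith
    rw [← hy]
    have h6 : (1 + y) * res ((3 * x + 1) / 2) ≤ (1 + y) * (C * (1 - (s + A) / 3000000000000)) :=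
      mul_le_mul_of_nonneg_left b (by linarith)
    refine h6.trans ?_
    have hs : (0 : ℝ) ≤ s / 3000000000000 := by positivity
    have h7 : (1 + y) * (1 - (s + A) / 3000000000000) ≤ 1 - s / 3000000000000 := by
      rw [add_div]
      nlinarith
    calc (1 + y) * (C * (1 - (s + A) / 3000000000000)) = C * ((1 + y) * (1 - (s + A) / 3000000000000)) := by ring
      _ ≤ _ := mul_le_mul_of_nonneg_left h7 hC

theorem go_good {m : ℕ} (hm : 1500 < m) (IH : ∀ y : ℕ, 1 ≤ y → y < m → Good y) :
    ∀ k x s : ℕ, 1 ≤ x → go m k x s = true →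
      Reach x ∧ res x ≤ 126 / 100 * (1 - 4 / m) * (1 - s / 3000000000000) := by
  have hm' : (1500 : ℝ) < m := by exact_mod_cast hm
  have hm4 : (4 : ℝ) / m ≤ 4 / 1500 := by gcongr
  have hm0 : (0 : ℝ) < 4 / m := by positivity
  have hC : (0 : ℝ) ≤ 126 / 100 * (1 - 4 / m) := by nlinarith
  intro k
  induction k with
  | zero =>
    intro x s _ h
    exact Bool.noConfusion (show false = true from h)
  | succ k ih =>
    intro x s hx h
    have hb : body m (go m k) x s = true := h
    rcases body_sound hb with ⟨h1, h2⟩ | ⟨h1, h2, h3⟩ | ⟨h1, h2, h3⟩ | ⟨h1, h2⟩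
    · exact stp_good (m := m) hC ih (by omega) h2
    · obtain ⟨a, b⟩ := IH x hx h1
      refine ⟨a, b.trans ?_⟩
      rw [phi, if_pos h2]
      have h4 : (s : ℝ) / 3000000000000 ≤ 1 / 400 := by
        rw [div_le_div_iff₀ (by norm_num) (by norm_num)]
        have : ((s * 400 : ℕ) : ℝ) ≤ ((3000000000000 : ℕ) : ℝ) := by exact_mod_cast h3
        push_cast at this
        linarith
      have h5 : (1 - 4 / 1500 : ℝ) ≤ 1 - 4 / m := by linarith
      have h6 : (1 - 1 / 400 : ℝ) ≤ 1 - s / 3000000000000 := by linarith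
      have h7 : (1 - 4 / 1500 : ℝ) * (1 - 1 / 400) ≤ (1 - 4 / m) * (1 - s / 3000000000000) :=
        mul_le_mul h5 h6 (by norm_num) (by linarith)
      rw [mul_assoc]
      linarith
    · obtain ⟨a, b⟩ := IH x hx h1
      refine ⟨a, b.trans ?_⟩
      rw [phi, if_neg (by omega)]
      have hx0 : (0 : ℝ) < x := by exact_mod_cast hx
      have hmx : (0 : ℝ) < m := by linarith
      have h4 : ((s * m * x : ℕ) : ℝ) ≤ ((12000000000000 * (m - x) : ℕ) : ℝ) := by exact_mod_cast h3
      push_cast [Nat.cast_sub h1.le] at h4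
      have h5 : (s : ℝ) / 3000000000000 ≤ 4 / x - 4 / m := by
        rw [div_sub_div _ _ hx0.ne' hmx.ne', div_le_div_iff₀ (by norm_num) (by positivity)]
        nlinarith
      rw [mul_assoc]
      refine mul_le_mul_of_nonneg_left ?_ (by norm_num)
      have h6 : 0 ≤ 4 / (m : ℝ) * (s / 3000000000000) := by positivity
      nlinarith
    · exact stp_good (m := m) hC ih (by omega) h2

theorem goB_good {m : ℕ} : ∀ k x p q : ℕ, 1 ≤ x → goB m k x p q = true →
    Reach x ∧ p * 2 ^ ev x * 10000 ≤ 12532 * q * 3 ^ od x * m := by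
  intro k
  induction k with
  | zero =>
    intro x p q _ h
    exact Bool.noConfusion (show false = true from h)
  | succ k ih =>
    intro x p q hx h
    rcases rec_true (show Bool.rec (motive := fun _ => Bool)
      (Bool.rec (motive := fun _ => Bool) (goB m k (3 * x + 1) p (3 * q)) (goB m k (x / 2) (2 * p) q)
        (Nat.beq (x % 2) 0)) (Nat.ble (p * 10000) (12532 * q * m)) (Nat.beq x 1) = true from h)
      with ⟨h1, h2⟩ | ⟨h1, h2⟩
    · have hne : x ≠ 1 := Nat.ne_of_beq_eq_false h1
      rcases rec_true h2 with ⟨h3, h4⟩ | ⟨h3, h4⟩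
      · have ho : x % 2 ≠ 0 := Nat.ne_of_beq_eq_false h3
        have he : ¬ Even x := by
          rw [Nat.even_iff]
          exact ho
        have e : f x = 3 * x + 1 := if_neg he
        obtain ⟨a, b⟩ := ih _ _ _ (by omega) h4
        have hr : Reach x := (reach_succ hne).1.2 (by rw [e]; exact a)
        refine ⟨hr, ?_⟩
        have e1 := ev_step hne hr
        have e2 := od_step hne hr
        rw [if_neg he, add_zero, e] at e1
        rw [if_pos he, e] at e2
        rw [e1, e2, pow_succ]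
        nlinarith
      · have ho : x % 2 = 0 := Nat.eq_of_beq_eq_true h3
        have he : Even x := Nat.even_iff.2 ho
        have e : f x = x / 2 := if_pos he
        obtain ⟨a, b⟩ := ih _ _ _ (by omega) h4
        have hr : Reach x := (reach_succ hne).1.2 (by rw [e]; exact a)
        refine ⟨hr, ?_⟩
        have e1 := ev_step hne hr
        have e2 := od_step hne hr
        rw [if_pos he, e] at e1
        rw [if_neg (not_not.2 he), add_zero, e] at e2
        rw [e1, e2, pow_succ]
        nlinarith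
    · have h3 : x = 1 := Nat.eq_of_beq_eq_true h1
      have h4 := Nat.le_of_ble_eq_true h2
      subst h3
      refine ⟨reach_one, ?_⟩
      rw [ev_one, od_one, pow_zero, pow_zero, mul_one, mul_one]
      exact h4

end Pool.Agent.Helper41.RV
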