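import Pool.Agent.Helper41.RV.Go

/-!
# The residues of small numbers: the runs, part 2
-/

set_option autoImplicit false

namespace Pool.Agent.Helper41.RV

theorem run9 : rng2 361503 100 = true := by decide +kernel

theorem run10 : rng2 401503 100 = true := by decide +kernel

theorem run11 : rng2 441503 100 = true := by decide +kernel

theorem run12 : rng2 481503 100 = true := by decide +kernel

theorem run13 : rng2 521503 100 = true := by decide +kernel

theorem run14 : rng2 561503 100 = true := by decide +kernel

theorem run15 : rng2 601503 100 = true := by decide +kernel

theorem run16 : rng2 641503 100 = true := by decide +kernel

end Pool.Agent.Helper41.RV
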