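import Pool.Agent.Helper41.RV.Go

/-!
# The residues of small numbers: the runs, part 3
-/

set_option autoImplicit false

namespace Pool.Agent.Helper41.RV

theorem run17 : rng2 681503 100 = true := by decide +kernel

theorem run18 : rng2 721503 100 = true := by decide +kernel

theorem run19 : rng2 761503 100 = true := by decide +kernel

theorem run20 : rng2 801503 100 = true := by decide +kernel

theorem run21 : rng2 841503 100 = true := by decide +kernel

theorem run22 : rng2 881503 100 = true := by decide +kernel

theorem run23 : rng2 921503 100 = true := by decide +kernel

theorem run24 : rng2 961503 100 = true := by decide +kernel

end Pool.Agent.Helper41.RV
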