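import Pool.Agent.Helper41.RV.Run1
import Pool.Agent.Helper41.RV.Run2
import Pool.Agent.Helper41.RV.Run3

/-!
# The residues of the numbers up to `10 ^ 6`, and the number of steps of the exceptions
-/

set_option autoImplicit false

namespace Pool.Agent.Helper41.RV

theorem good_small : ∀ m : ℕ, 1 ≤ m → m ≤ 1500 → Good m := by
  intro m
  induction m using Nat.strong_induction_on with
  | _ m ih =>
    intro h1 h2
    unfold Good phi
    rw [if_pos h2]
    rcases Nat.mod_two_eq_zero_or_one m with h3 | h3
    · obtain ⟨a, b⟩ := ih (m / 2) (by omega) (by omega) (by omega)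
      rw [phi, if_pos (by omega)] at b
      obtain ⟨c, d⟩ := res_half h1 h3 a
      exact ⟨c, by rw [d]; exact b⟩
    · have h4 := rngB_sound 750 runB (m / 2) (by omega)
      rw [show 1 + 2 * (m / 2) = m by omega] at h4
      obtain ⟨a, b⟩ := goB_good 400 m 1 1 h1 h4
      refine ⟨a, ?_⟩
      unfold res
      have hm : (0 : ℝ) < m := by exact_mod_cast h1
      rw [div_le_div_iff₀ (by positivity) (by norm_num)]
      have h5 : ((1 * 2 ^ ev m * 10000 : ℕ) : ℝ) ≤ ((12532 * 1 * 3 ^ od m * m : ℕ) : ℝ) := by exact_mod_cast b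
      push_cast at h5
      linarith

theorem runs {m : ℕ} (h0 : 1500 < m) (h1 : m ≤ 1000000) (h3 : m % 4 = 3) : go m 400 m 0 = true := by
  have h : ∀ {a : ℕ}, rng2 a 100 = true → ∀ b : ℕ, a = 1503 + 40000 * b →
      a ≤ m → m < a + 40000 → go m 400 m 0 = true := by
    intro a hr b hb ha hlt
    have h5 := rng2_sound 100 hr ((m - a) / 400) (by omega)
    have h4 := rng_sound 100 h5 ((m - (a + 400 * ((m - a) / 400))) / 4) (by omega)
    rwa [show a + 400 * ((m - a) / 400) + 4 * ((m - (a + 400 * ((m - a) / 400))) / 4) = m by omega] at h4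
  have hb : (m - 1503) / 40000 < 25 := by omega
  obtain ⟨b, hb2⟩ : ∃ b : ℕ, b = (m - 1503) / 40000 := ⟨_, rfl⟩
  rw [← hb2] at hb
  have e1 : 1503 + 40000 * b ≤ m := by omega
  have e2 : m < 1503 + 40000 * b + 40000 := by omega
  clear hb2
  interval_cases b
  · exact h run0 0 (by norm_num) (by omega) (by omega)
  · exact h run1 1 (by norm_num) (by omega) (by omega)
  · exact h run2 2 (by norm_num) (by omega) (by omega)
  · exact h run3 3 (by norm_num) (by omega) (by omega)
  · exact h run4 4 (by norm_num) (by omega) (by omega)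
  · exact h run5 5 (by norm_num) (by omega) (by omega)
  · exact h run6 6 (by norm_num) (by omega) (by omega)
  · exact h run7 7 (by norm_num) (by omega) (by omega)
  · exact h run8 8 (by norm_num) (by omega) (by omega)
  · exact h run9 9 (by norm_num) (by omega) (by omega)
  · exact h run10 10 (by norm_num) (by omega) (by omega)
  · exact h run11 11 (by norm_num) (by omega) (by omega)
  · exact h run12 12 (by norm_num) (by omega) (by omega)
  · exact h run13 13 (by norm_num) (by omega) (by omega)
  · exact h run14 14 (by norm_num) (by omega) (by omega)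
  · exact h run15 15 (by norm_num) (by omega) (by omega)
  · exact h run16 16 (by norm_num) (by omega) (by omega)
  · exact h run17 17 (by norm_num) (by omega) (by omega)
  · exact h run18 18 (by norm_num) (by omega) (by omega)
  · exact h run19 19 (by norm_num) (by omega) (by omega)
  · exact h run20 20 (by norm_num) (by omega) (by omega)
  · exact h run21 21 (by norm_num) (by omega) (by omega)
  · exact h run22 22 (by norm_num) (by omega) (by omega)
  · exact h run23 23 (by norm_num) (by omega) (by omega)
  · exact h run24 24 (by norm_num) (by omega) (by omega)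

theorem good_all : ∀ m : ℕ, 1 ≤ m → m ≤ 1000000 → Good m := by
  intro m
  induction m using Nat.strong_induction_on with
  | _ m ih =>
    intro h1 h2
    rcases le_or_gt m 1500 with h0 | h0
    · exact good_small m h1 h0
    have hm' : (1500 : ℝ) < m := by exact_mod_cast h0
    have hm4 : (4 : ℝ) / m ≤ 4 / 1500 := by gcongr
    have hm0 : (0 : ℝ) < 4 / m := by positivity
    have hP : phi m = 126 / 100 * (1 - 4 / m) := by rw [phi, if_neg (by omega)]
    rcases Nat.mod_two_eq_zero_or_one m with h3 | h3
    · obtain ⟨a, b⟩ := ih (m / 2) (by omega) (by omega) (by omega)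
      obtain ⟨c, d⟩ := res_half h1 h3 a
      refine ⟨c, ?_⟩
      rw [d]
      refine b.trans ?_
      rw [hP]
      rcases le_or_gt (m / 2) 1500 with h5 | h5
      · rw [phi, if_pos h5]
        linarith
      · rw [phi, if_neg (by omega)]
        have h6 : (0 : ℝ) < ((m / 2 : ℕ) : ℝ) := by
          have : 0 < m / 2 := by omega
          exact_mod_cast this
        have h7 : ((m / 2 : ℕ) : ℝ) ≤ m := by
          have : m / 2 ≤ m := by omega
          exact_mod_cast this
        have h8 : (4 : ℝ) / m ≤ 4 / ((m / 2 : ℕ) : ℝ) := by gcongr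
        linarith
    · rcases (show m % 4 = 1 ∨ m % 4 = 3 by omega) with h4 | h4
      · have e1 : (3 * m + 1) / 2 % 2 = 0 := by omega
        have e2 : (3 * m + 1) / 2 / 2 < m := by omega
        obtain ⟨a, b⟩ := ih _ e2 (by omega) (by omega)
        obtain ⟨c, d⟩ := res_half (by omega) e1 a
        obtain ⟨c2, d2⟩ := res_up (by omega) h3 c
        refine ⟨c2, ?_⟩
        rw [d2, d, hP]
        set y : ℕ := (3 * m + 1) / 2 / 2 with hy
        have e3 : 4 * y = 3 * m + 1 := by omega
        have e4 : (4 : ℝ) * y = 3 * m + 1 := by exact_mod_cast e3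
        have hy0 : (0 : ℝ) < y := by linarith
        have hmx : (0 : ℝ) < m := by linarith
        have h9 : (0 : ℝ) < 1 + 1 / (3 * (m : ℝ)) := by positivity
        refine (mul_le_mul_of_nonneg_left b h9.le).trans ?_
        rcases le_or_gt y 1500 with h5 | h5
        · rw [phi, if_pos h5]
          have h10 : 1 / (3 * (m : ℝ)) ≤ 1 / (3 * 1500) := by gcongr
          nlinarith
        · rw [phi, if_neg (by omega)]
          have h11 : (1 + 1 / (3 * (m : ℝ))) * (1 - 4 / y) = 1 - 5 / m := by
            have : (y : ℝ) = (3 * m + 1) / 4 := by linarith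
            rw [this]
            have h12 : (3 * (m : ℝ) + 1) ≠ 0 := by positivity
            field_simp
            ring
          have h13 : (4 : ℝ) / m ≤ 5 / m := by gcongr; norm_num
          calc (1 + 1 / (3 * (m : ℝ))) * (126 / 100 * (1 - 4 / y))
              = 126 / 100 * ((1 + 1 / (3 * (m : ℝ))) * (1 - 4 / y)) := by ring
            _ = 126 / 100 * (1 - 5 / m) := by rw [h11]
            _ ≤ _ := by linarith
      · obtain ⟨a, b⟩ := go_good h0 (fun y hy1 hy2 => ih y hy2 hy1 (by omega)) 400 m 0 h1 (runs h0 h2 h4)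
        refine ⟨a, b.trans ?_⟩
        rw [hP, Nat.cast_zero, zero_div, sub_zero, mul_one]

theorem res_small {m : ℕ} (h1 : 1 ≤ m) (h2 : m ≤ 1000000) : Reach m ∧ res m ≤ 126 / 100 := by
  obtain ⟨a, b⟩ := good_all m h1 h2
  refine ⟨a, b.trans ?_⟩
  unfold phi
  split_ifs
  · norm_num
  · have : (0 : ℝ) ≤ 4 / m := by positivity
    linarith

/-- Numbers with at most `165000` odd steps have residue less than `1.3325`. -/
theorem res_of_od {n : ℕ} (h1 : 1 ≤ n) (hr : Reach n) (h : od n ≤ 165000) : res n ≤ 1.3325 := by
  have h2 := res_le (B := 1000000) (by norm_num) (fun m a b => (res_small a b).2) n h1 hr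
  refine h2.trans ?_
  have h3 : (1 + 1 / (3 * ((1000000 : ℕ) : ℝ))) ^ od n ≤ Real.exp (0.055) := by
    calc (1 + 1 / (3 * ((1000000 : ℕ) : ℝ))) ^ od n ≤ (1 + 1 / (3 * ((1000000 : ℕ) : ℝ))) ^ 165000 :=
          pow_le_pow_right₀ (by norm_num) h
      _ ≤ Real.exp (1 / (3 * ((1000000 : ℕ) : ℝ))) ^ 165000 := by
          refine pow_le_pow_left₀ (by norm_num) ?_ _
          rw [add_comm]
          exact Real.add_one_le_exp _
      _ = Real.exp (165000 * (1 / (3 * ((1000000 : ℕ) : ℝ)))) := by
          rw [← Real.exp_nat_mul]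
          norm_num
      _ ≤ _ := by
          apply Real.exp_le_exp.2
          norm_num
  have h4 : Real.exp (0.055) ≤ 1.0575 :=
    (Real.exp_bound' (x := 0.055) (by norm_num) (by norm_num) (n := 3) (by norm_num)).trans
      (by norm_num [Finset.sum_range_succ, Nat.factorial])
  nlinarith

end Pool.Agent.Helper41.RV
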