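import Pool.Agent.Helper41.RV.Count
import Pool.Agent.Helper41.RV.Small

/-!
# The exceptions to the conjecture have many steps
-/

set_option autoImplicit false

namespace Pool.Agent.Helper41.RV

theorem steps_eq {n k : ℕ} (h : f^[k] n = 1) (h2 : ∀ j < k, f^[j] n ≠ 1) : steps n = k := by
  apply le_antisymm
  · exact Nat.sInf_le (s := {k : ℕ | f^[k] n = 1}) h
  · by_contra hlt
    exact h2 _ (by omega) (steps_spec ⟨k, h⟩)

theorem steps_small : steps 1 = 0 ∧ steps 2 = 1 ∧ steps 3 = 7 ∧ steps 4 = 2 ∧ steps 5 = 5 ∧ steps 6 = 8 ∧ steps 7 = 16 ∧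
    steps 8 = 3 ∧ steps 9 = 19 ∧ steps 10 = 6 ∧ steps 11 = 14 ∧ steps 12 = 9 ∧ steps 13 = 9 ∧ steps 14 = 17 ∧
    steps 15 = 17 ∧ steps 16 = 4 ∧ steps 17 = 12 ∧ steps 18 = 20 := by
  refine ⟨?_, ?_, ?_, ?_, ?_, ?_, ?_, ?_, ?_, ?_, ?_, ?_, ?_, ?_, ?_, ?_, ?_, ?_⟩ <;>
    exact steps_eq (by decide) (by decide)

/-- `T(n) ≥ 412000` if `n` has more than `165000` odd steps. -/
theorem steps_of_od {n : ℕ} (hn : 1 ≤ n) (hr : Reach n) (h : 165001 ≤ od n) : 412000 ≤ steps n := by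
  have h1 := three_pow_od_le hn hr
  have h2 : (3 : ℕ) ^ od n ≤ 2 ^ ev n := by exact_mod_cast h1
  have h3 : 3 * od n ≤ 2 * ev n := by
    by_contra hcon
    have h4 : 2 * ev n < 3 * od n := by omega
    have h5 : (2 : ℕ) ^ (2 * ev n) < 2 ^ (3 * od n) := Nat.pow_lt_pow_right (by norm_num) h4
    have h6 : (3 : ℕ) ^ (2 * od n) ≤ 2 ^ (2 * ev n) := by
      rw [mul_comm 2 (od n), pow_mul, mul_comm 2 (ev n), pow_mul]
      exact Nat.pow_le_pow_left h2 2
    have h7 : (2 : ℕ) ^ (3 * od n) ≤ 3 ^ (2 * od n) := by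
      rw [pow_mul, pow_mul]
      exact Nat.pow_le_pow_left (by norm_num) _
    omega
  rw [← ev_add_od n]
  omega

/-- The indices of the conjecture. -/
def Listed (n : ℕ) (v : ℤ) : Prop := (v = 1 ∧ n = 1) ∨ (v = 6 ∧ n = 2) ∨ (v = 16 ∧ n = 8) ∨ (v = 3 ∧ (n = 4 ∨ n = 5))

theorem exceptions {v : ℤ} (hv : v = 1 ∨ v = 6 ∨ v = 16 ∨ v = 3) {n : ℕ} (hn : 1 ≤ n) (h : n ∈ I v) (hl : ¬ Listed n v) :
    4 / 3 * (n / ((n : ℝ) + 1)) ≤ max (res n) (res (n + 1)) ∧ 1000000 ≤ n ∧ 400000 ≤ steps n ∧ 400000 ≤ steps (n + 1) := by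
  obtain ⟨h1, h2, h3⟩ := h
  have hmax := four_res hv hn h1 h2 h3
  have hbig : 1000000 ≤ n := by
    by_contra hcon
    have a1 := (res_small hn (by omega)).2
    have a2 := (res_small (m := n + 1) (by omega) (by omega)).2
    have a3 : 4 / 3 * (n / ((n : ℝ) + 1)) ≤ 126 / 100 := hmax.trans (max_le a1 a2)
    have hn0 : (0 : ℝ) < (n : ℝ) + 1 := by positivity
    rw [mul_div_assoc', div_le_iff₀ hn0] at a3
    have a4 : (n : ℝ) < 18 := by linarith
    have a5 : n < 18 := by exact_mod_cast a4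
    obtain ⟨s1, s2, s3, s4, s5, s6, s7, s8, s9, s10, s11, s12, s13, s14, s15, s16, s17, s18⟩ := steps_small
    unfold Listed at hl
    interval_cases n <;> norm_num only [s1, s2, s3, s4, s5, s6, s7, s8, s9, s10, s11, s12, s13, s14, s15, s16, s17, s18] at h3 <;> omega
  refine ⟨hmax, hbig, ?_⟩
  have hod : 165000 < od n ∨ 165000 < od (n + 1) := by
    by_contra hcon
    rw [not_or, not_lt, not_lt] at hcon
    have a1 := res_of_od hn h1 hcon.1
    have a2 := res_of_od (n := n + 1) (by omega) h2 hcon.2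
    have a3 : 4 / 3 * (n / ((n : ℝ) + 1)) ≤ 1.3325 := hmax.trans (max_le a1 a2)
    have hn0 : (0 : ℝ) < (n : ℝ) + 1 := by positivity
    have hn1 : (1000000 : ℝ) ≤ n := by exact_mod_cast hbig
    rw [mul_div_assoc', div_le_iff₀ hn0] at a3
    linarith
  rcases hod with hod | hod
  · have := steps_of_od hn h1 (by omega)
    rcases hv with rfl | rfl | rfl | rfl <;> omega
  · have := steps_of_od (n := n + 1) (by omega) h2 (by omega)
    rcases hv with rfl | rfl | rfl | rfl <;> omega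

end Pool.Agent.Helper41.RV
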