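import Pool.Agent.Helper41.RV.Basic

/-!
# Residues

`ev n` and `od n` are the numbers of the even and of the odd terms among the first `T(n)` terms of the orbit of `n`, and
`res n = 2 ^ ev n / (3 ^ od n * n)` is the residue of `n`, which is the product of the `1 + 1 / (3 m)` over these odd terms `m`.
If `T(n + 1) - T(n) = v` then `(n + 1) * res (n + 1) / (n * res n) = 2 ^ v / 6 ^ j`, `j = od (n + 1) - od n`.
-/

set_option autoImplicit false

namespace Pool.Agent.Helper41.RV

/-- The number of the even terms among the first `T(n)` terms of the orbit. -/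
noncomputable def ev (n : ℕ) : ℕ := ((Finset.range (steps n)).filter fun i => Even (f^[i] n)).card

/-- The number of the odd terms among the first `T(n)` terms of the orbit. -/
noncomputable def od (n : ℕ) : ℕ := ((Finset.range (steps n)).filter fun i => ¬ Even (f^[i] n)).card

/-- The residue. -/
noncomputable def res (n : ℕ) : ℝ := 2 ^ ev n / (3 ^ od n * n)

theorem ev_add_od (n : ℕ) : ev n + od n = steps n := by
  unfold ev od
  rw [Finset.card_filter_add_card_filter_not, Finset.card_range]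

theorem steps_spec {n : ℕ} (h : Reach n) : f^[steps n] n = 1 := Nat.sInf_mem (s := {k : ℕ | f^[k] n = 1}) h

theorem steps_one : steps 1 = 0 := by
  have h : steps 1 ≤ 0 := Nat.sInf_le (s := {k : ℕ | f^[k] 1 = 1}) rfl
  omega

theorem reach_one : Reach 1 := ⟨0, rfl⟩

theorem not_reach_zero : ¬ Reach 0 := by
  rintro ⟨k, hk⟩
  have h : ∀ k : ℕ, f^[k] 0 = 0 := by
    intro k
    induction k with
    | zero => rfl
    | succ k ih => rw [Function.iterate_succ_apply, show f 0 = 0 by decide, ih]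
  rw [h k] at hk
  omega

theorem reach_succ {n : ℕ} (hn : n ≠ 1) : (Reach n ↔ Reach (f n)) ∧ (Reach n → steps n = steps (f n) + 1) := by
  have h := reach_iter (n := n) (K := 1) (by
    intro j hj
    have : j = 0 := by omega
    subst this
    exact hn)
  rw [Function.iterate_one] at h
  refine ⟨h.1, fun hr => ?_⟩
  rw [h.2 hr, add_comm]

theorem f_pos {n : ℕ} (hn : 1 ≤ n) : 1 ≤ f n := by
  unfold f
  split_ifs with h
  · obtain ⟨m, rfl⟩ := h
    omega
  · omega

theorem reach_induction {P : ℕ → Prop} (h1 : P 1)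
    (h : ∀ n : ℕ, 1 ≤ n → n ≠ 1 → Reach n → P (f n) → P n) : ∀ n : ℕ, 1 ≤ n → Reach n → P n := by
  have key : ∀ k n : ℕ, 1 ≤ n → Reach n → steps n = k → P n := by
    intro k
    induction k with
    | zero =>
      intro n _ hr hs
      have := steps_spec hr
      rw [hs] at this
      have e : n = 1 := this
      rw [e]
      exact h1
    | succ k ih =>
      intro n hn hr hs
      have hne : n ≠ 1 := by
        rintro rfl
        rw [steps_one] at hs
        omega
      obtain ⟨a, b⟩ := reach_succ hne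
      have b' := b hr
      exact h n hn hne hr (ih (f n) (f_pos hn) (a.1 hr) (by omega))
  intro n hn hr
  exact key _ n hn hr rfl

theorem ev_step {n : ℕ} (hne : n ≠ 1) (hr : Reach n) : ev n = ev (f n) + if Even n then 1 else 0 := by
  unfold ev
  rw [(reach_succ hne).2 hr, Finset.card_filter, Finset.card_filter, Finset.sum_range_succ']
  rfl

theorem od_step {n : ℕ} (hne : n ≠ 1) (hr : Reach n) : od n = od (f n) + if ¬ Even n then 1 else 0 := by
  unfold od
  rw [(reach_succ hne).2 hr, Finset.card_filter, Finset.card_filter, Finset.sum_range_succ']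
  rfl

theorem ev_one : ev 1 = 0 := by
  unfold ev
  rw [steps_one]
  rfl

theorem od_one : od 1 = 0 := by
  unfold od
  rw [steps_one]
  rfl

theorem res_one : res 1 = 1 := by
  unfold res
  rw [ev_one, od_one]
  norm_num

theorem res_even {n : ℕ} (h1 : 1 ≤ n) (hne : n ≠ 1) (hr : Reach n) (h : Even n) : res n = res (n / 2) := by
  have e1 := ev_step hne hr
  have e2 := od_step hne hr
  rw [if_pos h] at e1
  rw [if_neg (not_not.2 h), add_zero] at e2
  have e3 : f n = n / 2 := if_pos h
  rw [e3] at e1 e2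
  obtain ⟨m, rfl⟩ := h
  have e4 : (m + m) / 2 = m := by omega
  rw [e4] at e1 e2 ⊢
  unfold res
  rw [e1, e2, pow_succ]
  have hm : (m : ℝ) ≠ 0 := by
    have : m ≠ 0 := by omega
    exact_mod_cast this
  push_cast
  field_simp
  ring

theorem res_odd {n : ℕ} (h1 : 1 ≤ n) (hne : n ≠ 1) (hr : Reach n) (h : ¬ Even n) :
    res n = (1 + 1 / (3 * (n : ℝ))) * res (3 * n + 1) := by
  have e1 := ev_step hne hr
  have e2 := od_step hne hr
  rw [if_neg h, add_zero] at e1
  rw [if_pos h] at e2
  have e3 : f n = 3 * n + 1 := if_neg h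
  rw [e3] at e1 e2
  unfold res
  rw [e1, e2, pow_succ]
  have hn : (n : ℝ) ≠ 0 := by
    have : n ≠ 0 := by omega
    exact_mod_cast this
  have hn2 : (3 * (n : ℝ) + 1) ≠ 0 := by positivity
  push_cast
  field_simp

theorem one_le_res : ∀ n : ℕ, 1 ≤ n → Reach n → 1 ≤ res n := by
  apply reach_induction
  · rw [res_one]
  · intro n hn hne hr ih
    by_cases h : Even n
    · rw [res_even hn hne hr h]
      have e3 : f n = n / 2 := if_pos h
      rwa [e3] at ih
    · rw [res_odd hn hne hr h]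
      have e3 : f n = 3 * n + 1 := if_neg h
      rw [e3] at ih
      have : (0 : ℝ) ≤ 1 / (3 * (n : ℝ)) := by positivity
      nlinarith

theorem three_pow_od_le {n : ℕ} (hn : 1 ≤ n) (hr : Reach n) : (3 : ℝ) ^ od n ≤ 2 ^ ev n := by
  have h := one_le_res n hn hr
  unfold res at h
  have hn' : (1 : ℝ) ≤ n := by exact_mod_cast hn
  have h3 : (0 : ℝ) < 3 ^ od n := by positivity
  rw [le_div_iff₀ (by positivity), one_mul] at h
  nlinarith

/-- The residues of the numbers above `B` in terms of those of the numbers up to `B`. -/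
theorem res_le {B : ℕ} {ρ : ℝ} (hB : 1 ≤ B) (h : ∀ m : ℕ, 1 ≤ m → m ≤ B → res m ≤ ρ) :
    ∀ n : ℕ, 1 ≤ n → Reach n → res n ≤ ρ * (1 + 1 / (3 * (B : ℝ))) ^ od n := by
  have hρ : 1 ≤ ρ := by
    have := h 1 le_rfl hB
    rwa [res_one] at this
  have hb : (0 : ℝ) < B := by exact_mod_cast hB
  have hbase : (1 : ℝ) ≤ 1 + 1 / (3 * (B : ℝ)) := by
    have : (0 : ℝ) ≤ 1 / (3 * (B : ℝ)) := by positivity
    linarith
  have hsmall : ∀ n : ℕ, 1 ≤ n → n ≤ B → res n ≤ ρ * (1 + 1 / (3 * (B : ℝ))) ^ od n := by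
    intro n h1 h2
    refine (h n h1 h2).trans ?_
    exact le_mul_of_one_le_right (by linarith) (one_le_pow₀ hbase)
  apply reach_induction
  · exact hsmall 1 le_rfl hB
  · intro n hn hne hr ih
    rcases le_or_gt n B with hnB | hnB
    · exact hsmall n hn hnB
    by_cases he : Even n
    · have e3 : f n = n / 2 := if_pos he
      have e2 := od_step hne hr
      rw [if_neg (not_not.2 he), add_zero] at e2
      rw [res_even hn hne hr he, e2, ← e3]
      exact ih
    · have e3 : f n = 3 * n + 1 := if_neg he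
      have e2 := od_step hne hr
      rw [if_pos he] at e2
      rw [res_odd hn hne hr he, e2, pow_succ, ← e3]
      have h4 : 1 + 1 / (3 * (n : ℝ)) ≤ 1 + 1 / (3 * (B : ℝ)) := by
        have : (B : ℝ) ≤ n := by exact_mod_cast hnB.le
        gcongr
      have h5 : 0 ≤ res (f n) := by
        have := one_le_res (f n) (f_pos hn) ((reach_succ hne).1.1 hr)
        linarith
      calc (1 + 1 / (3 * (n : ℝ))) * res (f n) ≤ (1 + 1 / (3 * (B : ℝ))) * res (f n) :=
            mul_le_mul_of_nonneg_right h4 h5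
        _ ≤ (1 + 1 / (3 * (B : ℝ))) * (ρ * (1 + 1 / (3 * (B : ℝ))) ^ od (f n)) :=
            mul_le_mul_of_nonneg_left ih (by linarith)
        _ = _ := by ring

/-- The ratio of the residues of `n` and `n + 1`. -/
theorem ratio {n : ℕ} (hn : 1 ≤ n) (h1 : Reach n) (h2 : Reach (n + 1)) :
    ((n : ℝ) + 1) * res (n + 1) / (n * res n) =
      2 ^ ((steps (n + 1) : ℤ) - steps n) / 6 ^ ((od (n + 1) : ℤ) - od n) := by
  have hn0 : (n : ℝ) ≠ 0 := by
    have : n ≠ 0 := by omega
    exact_mod_cast this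
  have hn1 : (n : ℝ) + 1 ≠ 0 := by positivity
  have e1 : ((steps (n + 1) : ℤ) - steps n) =
      ((ev (n + 1) : ℤ) - ev n) + ((od (n + 1) : ℤ) - od n) := by
    rw [← ev_add_od (n + 1), ← ev_add_od n]
    push_cast
    ring
  have e6 : (6 : ℝ) = 2 * 3 := by norm_num
  rw [e1, zpow_add₀ (by norm_num), e6, mul_zpow]
  unfold res
  rw [zpow_sub₀ (by norm_num : (2 : ℝ) ≠ 0) (ev (n + 1) : ℤ), zpow_sub₀ (by norm_num : (2 : ℝ) ≠ 0) (od (n + 1) : ℤ),
    zpow_sub₀ (by norm_num : (3 : ℝ) ≠ 0)]
  simp only [zpow_natCast]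
  push_cast
  field_simp

/-- The four values of the problem. -/
theorem four {v : ℤ} (hv : v = 1 ∨ v = 6 ∨ v = 16 ∨ v = 3) (j : ℤ) :
    (4 / 3 : ℝ) ≤ 2 ^ v / 6 ^ j ∨ (2 : ℝ) ^ v / 6 ^ j ≤ 3 / 4 := by
  have mono : ∀ a b : ℤ, a ≤ b → (6 : ℝ) ^ a ≤ 6 ^ b := fun a b h => zpow_le_zpow_right₀ (by norm_num) h
  have key : ∀ J : ℤ, (4 / 3 : ℝ) * 6 ^ J ≤ 2 ^ v → (2 : ℝ) ^ v ≤ 3 / 4 * 6 ^ (J + 1) →
      (4 / 3 : ℝ) ≤ 2 ^ v / 6 ^ j ∨ (2 : ℝ) ^ v / 6 ^ j ≤ 3 / 4 := by
    intro J ha hb
    have h6 : (0 : ℝ) < 6 ^ j := by positivity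
    rcases le_or_gt j J with hj | hj
    · left
      rw [le_div_iff₀ h6]
      have := mono j J hj
      linarith
    · right
      rw [div_le_iff₀ h6]
      have := mono (J + 1) j (by omega)
      linarith
  rcases hv with rfl | rfl | rfl | rfl
  · exact key 0 (by norm_num) (by norm_num)
  · exact key 2 (by norm_num) (by norm_num)
  · exact key 6 (by norm_num) (by norm_num)
  · exact key 1 (by norm_num) (by norm_num)

/-- For the four values one of the two residues is at least `(4 / 3) n / (n + 1)`. -/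
theorem four_res {v : ℤ} (hv : v = 1 ∨ v = 6 ∨ v = 16 ∨ v = 3) {n : ℕ} (hn : 1 ≤ n) (h1 : Reach n)
    (h2 : Reach (n + 1)) (h : (steps (n + 1) : ℤ) - steps n = v) :
    4 / 3 * (n / ((n : ℝ) + 1)) ≤ max (res n) (res (n + 1)) := by
  have hr := ratio hn h1 h2
  rw [h] at hr
  have a1 := one_le_res n hn h1
  have a2 := one_le_res (n + 1) (by omega) h2
  have hn0 : (1 : ℝ) ≤ n := by exact_mod_cast hn
  have hn1 : (0 : ℝ) < (n : ℝ) + 1 := by linarith
  have hq : (n : ℝ) / (n + 1) ≤ 1 := by
    rw [div_le_one hn1]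
    linarith
  rcases four hv ((od (n + 1) : ℤ) - od n) with h3 | h3
  · rw [← hr, le_div_iff₀ (by positivity)] at h3
    refine le_trans ?_ (le_max_right _ _)
    rw [mul_div_assoc', div_le_iff₀ hn1]
    nlinarith
  · rw [← hr, div_le_iff₀ (by positivity)] at h3
    refine le_trans ?_ (le_max_left _ _)
    have h4 : 4 / 3 ≤ res n := by nlinarith
    nlinarith

end Pool.Agent.Helper41.RV
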