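import Pool.Agent.Helper41.RV.Go

/-!
# The residues of small numbers: the runs, part 1
-/

set_option autoImplicit false

namespace Pool.Agent.Helper41.RV

theorem runB : rngB 1 750 = true := by decide +kernel

theorem run0 : rng2 1503 100 = true := by decide +kernel

theorem run1 : rng2 41503 100 = true := by decide +kernel

theorem run2 : rng2 81503 100 = true := by decide +kernel

theorem run3 : rng2 121503 100 = true := by decide +kernel

theorem run4 : rng2 161503 100 = true := by decide +kernel

theorem run5 : rng2 201503 100 = true := by decide +kernel

theorem run6 : rng2 241503 100 = true := by decide +kernel

theorem run7 : rng2 281503 100 = true := by decide +kernel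

theorem run8 : rng2 321503 100 = true := by decide +kernel

end Pool.Agent.Helper41.RV
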